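import Mathlib

set_option autoImplicit false

namespace Pool.Agent.Results.MP_d3b86e_co.Forest

open SimpleGraph Finset

/-- the growth step: delete the edges of `M` and join the new vertex `none` to the vertices of `M` -/
def grow {V : Type} (G : SimpleGraph V) (M : G.Subgraph) : SimpleGraph (Option V) where
  Adj
    | some a, some b => G.Adj a b ∧ ¬ M.Adj a b
    | some a, none => a ∈ M.verts
    | none, some b => b ∈ M.verts
    | none, none => False
  symm := ⟨by
    rintro (_ | a) (_ | b) h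
    exacts [h, h, h, ⟨h.1.symm, fun k => h.2 k.symm⟩]⟩
  loopless := ⟨by
    rintro (_ | a) h
    exacts [h, h.1.ne rfl]⟩

/-- Builder can guarantee a `k`-clique after exactly `t` rounds starting from `G` -/
def Wins (k : ℕ) : ℕ → ∀ {V : Type}, SimpleGraph V → Prop
  | 0, _, G => ¬ G.CliqueFree k
  | t + 1, _, G => ∃ M : G.Subgraph, M.IsMatching ∧ ∃ A B, Disjoint A B ∧ A ⊔ B = grow G M ∧
      Wins k t A ∧ Wins k t B

def Good (k t : ℕ) {W : Type} (R : SimpleGraph W) : Prop :=
  ∀ (V : Type) (G : SimpleGraph V) (f : R →g G), Function.Injective f → Wins k t G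

def dbl {W : Type} (R : SimpleGraph W) (c : W → ℕ) (w : W) : SimpleGraph (W × Bool × Bool) where
  Adj u v := (∃ b x y, x ≠ w ∧ y ≠ w ∧ R.Adj x y ∧ u = (x, (c x != c w && b), false) ∧
    v = (y, (c y != c w && b), false)) ∨ ∃ x b s, c x ≠ c w ∧ u = (x, b, s) ∧ v = (x, b, !s)
  symm := ⟨by
    rintro _ _ (⟨b, x, y, h1, h2, h3, rfl, rfl⟩ | ⟨x, b, s, h, rfl, rfl⟩)
    · exact Or.inl ⟨b, y, x, h2, h1, h3.symm, rfl, rfl⟩
    · exact Or.inr ⟨x, b, !s, h, rfl, by simp⟩⟩
  loopless := ⟨by
    rintro _ (⟨b, x, y, h1, h2, h3, rfl, e⟩ | ⟨x, b, s, h, rfl, e⟩)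
    · exact h3.ne (congrArg Prod.fst e)
    · simp at e⟩

theorem step {k t : ℕ} {W : Type} {R : SimpleGraph W} {c : W → ℕ} (w : W)
    (hc : ∀ x y, R.Adj x y → c x = c w → c y ≠ c w) (h : Good k t R) : Good k (t + 1) (dbl R c w) := by
  classical
  intro V G f hf
  let M : G.Subgraph :=
    { verts := {u | ∃ x b s, c x ≠ c w ∧ u = f (x, b, s)}
      Adj := fun u v => ∃ x b s, c x ≠ c w ∧ u = f (x, b, s) ∧ v = f (x, b, !s)
      adj_sub := by
        rintro _ _ ⟨x, b, s, h, rfl, rfl⟩
        exact f.map_adj (Or.inr ⟨x, b, s, h, rfl, rfl⟩)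
      edge_vert := fun ⟨x, b, s, h, e, _⟩ => ⟨x, b, s, h, e⟩
      symm := ⟨by
        rintro _ _ ⟨x, b, s, h, rfl, rfl⟩
        exact ⟨x, b, !s, h, rfl, by simp⟩⟩ }
  let g : Bool → W → Option V := fun b x =>
    if x = w then none else some (f (x, (c x != c w && b), false))
  have gi : ∀ b, Function.Injective (g b) := fun b x y e => by
    by_cases h1 : x = w <;> by_cases h2 : y = w <;> simp only [g, h1, h2, if_true, if_false] at e
    · rw [h1, h2]
    · cases e
    · cases e
    · exact congrArg Prod.fst (hf (Option.some_injective _ e))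
  have ga : ∀ b x y, R.Adj x y → (grow G M).Adj (g b x) (g b y) := fun b x y e => by
    by_cases h1 : x = w <;> by_cases h2 : y = w <;> simp only [g, h1, h2, if_true, if_false]
    · exact e.ne (h1.trans h2.symm)
    · exact ⟨y, _, _, hc x y e (by rw [h1]), rfl⟩
    · exact ⟨x, _, _, hc y x e.symm (by rw [h2]), rfl⟩
    · refine ⟨f.map_adj (Or.inl ⟨b, x, y, h1, h2, e, rfl, rfl⟩), ?_⟩
      rintro ⟨z, b', s, -, e1, e2⟩
      exact e.ne ((congrArg Prod.fst (hf e1)).trans (congrArg Prod.fst (hf e2)).symm)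
  have le : R.map (g false) ≤ grow G M := by
    rintro _ _ ⟨-, x, y, e, rfl, rfl⟩
    exact ga _ x y e
  have ne : ∀ x y, c x ≠ c w → g false y ≠ g true x := fun x y e k => by
    have h1 : x ≠ w := fun a => e (a ▸ rfl)
    by_cases h2 : y = w <;> simp only [g, h1, h2, if_true, if_false] at k
    · cases k
    · simpa [e] using congrArg (·.2.1) (hf (Option.some_injective _ k))
  refine ⟨M, ?_, R.map (g false), grow G M \ R.map (g false), disjoint_sdiff_self_right,
    sup_sdiff_cancel_right le, h _ _ (Embedding.map ⟨g false, gi _⟩ R).toHom (gi _),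
    h _ _ ⟨g true, fun {x y} e => ⟨ga _ x y e, ?_⟩⟩ (gi _)⟩
  · rintro _ ⟨x, b, s, h, rfl⟩
    refine ⟨f (x, b, !s), ⟨x, b, s, h, rfl, rfl⟩, ?_⟩
    rintro _ ⟨y, b', s', -, e, rfl⟩
    cases hf e
    rfl
  · rintro ⟨-, x', y', -, e1, e2⟩
    by_cases a : c x = c w
    exacts [ne y y' (hc x y e a) e2, ne x x' a e1]

lemma acyclic_of_rank {W : Type} (R : SimpleGraph W) (r : W → ℕ)
    (h1 : ∀ x y, R.Adj x y → r x ≠ r y)
    (h2 : ∀ x y z, R.Adj x y → R.Adj x z → r y < r x → r z < r x → y = z) : R.IsAcyclic := by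
  classical
  intro v p hp
  obtain ⟨u, hu, hmax⟩ := exists_max_image p.support.toFinset r ⟨v, by simp⟩
  have hu' : u ∈ p.support := by simpa using hu
  have hq := hp.rotate hu'
  have hs : ∀ x ∈ (p.rotate u hu').support, r x ≤ r u := fun x hx =>
    hmax x (by simpa using (Walk.mem_support_rotate_iff p u hu').1 hx)
  have a1 : R.Adj u (p.rotate u hu').snd := Walk.adj_snd hq.not_nil
  have a2 : R.Adj u (p.rotate u hu').penultimate := (Walk.adj_penultimate hq.not_nil).symm
  refine hq.snd_ne_penultimate (h2 u _ _ a1 a2 ?_ ?_)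
  · exact lt_of_le_of_ne (hs _ (Walk.getVert_mem_support _ _)) (h1 _ _ a1).symm
  · exact lt_of_le_of_ne (hs _ (Walk.getVert_mem_support _ _)) (h1 _ _ a2).symm

theorem main (k q : ℕ) : ∀ (a t : ℕ) (W : Type) [Fintype W] (R : SimpleGraph W) (c r : W → ℕ),
    (∀ x y, R.Adj x y → c x = c y → c x = 0 ∧ r x ≠ r y) →
    (∀ x y z, R.Adj x y → R.Adj x z → c x = 0 → c y = 0 → c z = 0 → r y < r x → r z < r x → y = z) →
    (∀ x, c x ≤ q) → #{x | c x = q} ≤ a → Good k t R →
    ∃ (t : ℕ) (W : Type) (_ : Fintype W) (R : SimpleGraph W), R.IsAcyclic ∧ Good k t R := by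
  classical
  induction q with
  | zero =>
    intro a t W _ R c r h1 h1' h2 _ h4
    have h0 : ∀ x, c x = 0 := fun x => Nat.le_zero.1 (h2 x)
    exact ⟨t, W, inferInstance, R, acyclic_of_rank R r
      (fun x y e => (h1 x y e (by rw [h0, h0])).2)
      (fun x y z e e' => h1' x y z e e' (h0 _) (h0 _) (h0 _)), h4⟩
  | succ q ih =>
    intro a
    induction a with
    | zero =>
      intro t W _ R c r h1 h1' h2 h3 h4
      refine ih _ t W R c r h1 h1' (fun x => ?_) le_rfl h4
      have := h2 x
      have : c x ≠ q + 1 := by simpa using filter_eq_empty_iff.mp (by simpa using h3) (mem_univ x)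
      omega
    | succ a iha =>
      intro t W _ R c r h1 h1' h2 h3 h4
      by_cases e : ∃ w, c w = q + 1
      · obtain ⟨w, hw⟩ := e
        refine iha _ _ (dbl R c w) (fun u => if u.2.2 then 0 else
          if u.1 = w ∨ (c u.1 = c w ∧ u.2.1) then 0 else c u.1)
          (fun u => if u.2.2 then r u.1 + 1 else r u.1) ?_ ?_ (fun u => ?_) ?_
          (step w (fun x y e a b => by have := h1 x y e (a.trans b.symm); omega) h4)
        · rintro _ _ (⟨b, x, y, a1, a2, a3, rfl, rfl⟩ | ⟨x, b, s, h, rfl, rfl⟩)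
          · have := h1 x y a3
            by_cases b1 : c x = c w <;> by_cases b2 : c y = c w <;> simp [a1, a2, b1, b2] <;> omega
          · have : x ≠ w := fun a => h (a ▸ rfl)
            cases s <;> simp [*] <;> omega
        · rintro _ _ _ (⟨b, x, y, a1, a2, a3, rfl, rfl⟩ | ⟨x, b, s, h, rfl, rfl⟩)
            (⟨b', x', y', a1', a2', a3', e1, rfl⟩ | ⟨x', b', s', h', e1, rfl⟩)
          · obtain ⟨rfl, e2, -⟩ : x = x' ∧ (c x != c w && b) = (c x' != c w && b') ∧ false = false := by
              simpa only [Prod.mk.injEq] using e1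
            have := h1' x y y' a3 a3'
            by_cases b1 : c x = c w <;> by_cases b2 : c y = c w <;> by_cases b3 : c y' = c w <;>
              simp [a1, a2, a2', b1, b2, b3] at e2 ⊢ <;> grind
          · obtain ⟨rfl, rfl, rfl⟩ : x = x' ∧ (c x != c w && b) = b' ∧ false = s' := by
              simpa only [Prod.mk.injEq] using e1
            simp
          · obtain ⟨rfl, rfl, rfl⟩ : x = x' ∧ b = (c x' != c w && b') ∧ s = false := by
              simpa only [Prod.mk.injEq] using e1
            simp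
          · obtain ⟨rfl, rfl, rfl⟩ : x = x' ∧ b = b' ∧ s = s' := by
              simpa only [Prod.mk.injEq] using e1
            simp
        · have := h2 u.1
          split_ifs <;> omega
        · have : #(({x | c x = q + 1} : Finset W).erase w) ≤ a := by
            rw [card_erase_of_mem (by simpa using hw)]; omega
          refine le_trans (card_le_card_of_injOn (·.1) ?_ ?_) this
          · rintro ⟨x, b, s⟩ h
            simp only [coe_filter, mem_univ, true_and, Set.mem_ofPred_eq] at h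
            simp only [coe_erase, coe_filter, mem_univ, true_and, Set.mem_sdiff, Set.mem_ofPred_eq,
              Set.mem_singleton_iff]
            split_ifs at h <;> grind
          · rintro ⟨x, b, s⟩ h ⟨y, b', s'⟩ h' rfl
            simp only [coe_filter, mem_univ, true_and, Set.mem_ofPred_eq] at h h'
            split_ifs at h h' <;> grind
      · exact iha t W R c r h1 h1' h2 (by rw [filter_eq_empty_iff.mpr fun x _ a => e ⟨x, a⟩]; simp) h4

theorem result (k : ℕ) : ∃ (n : ℕ) (G : SimpleGraph (Fin n)),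
    G.IsAcyclic ∧ (∀ g : ℕ, (g : ℕ∞) ≤ G.egirth) ∧ ∃ t, Wins k t G := by
  obtain ⟨t, W, _, R, h1, h2⟩ := main k k _ 0 (Fin k) ⊤ (fun x => x.1 + 1) (fun _ => 0)
    (fun x y e a => (e.ne (Fin.ext (by omega))).elim) (fun x y z _ _ a => by omega)
    (fun x => by omega) le_rfl fun V G f hf => IsContained.not_cliqueFree ⟨⟨f, hf⟩⟩
  let e := Iso.map (Fintype.equivFin W) R
  have h3 := e.isAcyclic_iff.1 h1
  exact ⟨_, _, h3, fun g => by rw [egirth_eq_top.2 h3]; exact le_top, t,
    h2 _ _ e.toHom e.injective⟩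

end Pool.Agent.Results.MP_d3b86e_co.Forest
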